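import Mathlib

set_option autoImplicit false
set_option linter.unusedSectionVars false

namespace Pool.Agent.Results.MP_e1f2d0_co.NoSymmetric

open Finset

/-- `M` is a linear `(t,s,p)`-all-or-nothing transform: the `s × s` matrix `M` over `ZMod p` is
invertible and every `t × t` submatrix (any choice of `t` distinct rows and `t` distinct columns)
is invertible. -/
def IsLinearAONT (p t s : ℕ) (M : Matrix (Fin s) (Fin s) (ZMod p)) : Prop :=
  IsUnit M ∧ ∀ r c : Fin t ↪ Fin s, IsUnit (M.submatrix r c)

/-- Standard form of a `p × p` matrix over `ZMod p` (rows and columns `1, ..., p` of the problem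
are the elements `0, ..., p - 1` of `Fin p`): the top left entry is `0`, all other entries of the
first row and of the first column are `1`, and the diagonal entries except possibly the last one
are `0`. -/
structure IsStandardForm {p : ℕ} (M : Matrix (Fin p) (Fin p) (ZMod p)) : Prop where
  corner : ∀ i j : Fin p, i.val = 0 → j.val = 0 → M i j = 0
  first_row : ∀ i j : Fin p, i.val = 0 → j.val ≠ 0 → M i j = 1
  first_col : ∀ i j : Fin p, i.val ≠ 0 → j.val = 0 → M i j = 1
  diag : ∀ i : Fin p, i.val ≠ 0 → i.val + 1 < p → M i i = 0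

section tools

variable {p : ℕ} [hp : Fact p.Prime]

theorem sum_univ_zero (h2 : 2 < p) : ∑ x : ZMod p, x = 0 := by
  have h := FiniteField.sum_pow_lt_card_sub_one (ZMod p) 1 (by rw [ZMod.card]; omega)
  simpa using h

theorem prod_erase_zero : ∏ x ∈ (univ : Finset (ZMod p)).erase 0, x = -1 := by
  classical
  have h := FiniteField.prod_univ_units_id_eq_neg_one (K := ZMod p)
  have h2 : ∏ x : (ZMod p)ˣ, (x : ZMod p) = -1 := by
    have := congrArg (fun u : (ZMod p)ˣ => (u : ZMod p)) h
    simpa [Units.coe_prod] using this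
  rw [← h2]
  symm
  refine Finset.prod_bij (fun (x : (ZMod p)ˣ) _ => (x : ZMod p)) ?_ ?_ ?_ ?_
  · intro x _; simp
  · intro x _ y _ h; exact Units.ext h
  · intro y hy
    have hy0 : y ≠ 0 := by simpa using hy
    exact ⟨Units.mk0 y hy0, mem_univ _, rfl⟩
  · intro x _; rfl

theorem image_eq_compl {ι : Type*} [DecidableEq ι] (K : Finset ι) (f : ι → ZMod p)
    (hinj : Set.InjOn f K) (B : Finset (ZMod p)) (hB : ∀ k ∈ K, f k ∉ B)
    (hcard : K.card + B.card = p) : K.image f = Bᶜ := by
  apply Finset.eq_of_subset_of_card_le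
  · intro x hx
    obtain ⟨k, hk, rfl⟩ := Finset.mem_image.mp hx
    exact Finset.mem_compl.mpr (hB k hk)
  · rw [Finset.card_image_of_injOn hinj, Finset.card_compl, ZMod.card]; omega

theorem exists_missing {ι : Type*} [DecidableEq ι] (K : Finset ι) (f : ι → ZMod p)
    (hinj : Set.InjOn f K) (B : Finset (ZMod p)) (hB : ∀ k ∈ K, f k ∉ B)
    (hcard : K.card + B.card + 1 = p) : ∃ c, c ∉ B ∧ K.image f = (insert c B)ᶜ := by
  have hsub : K.image f ⊆ Bᶜ := by
    intro x hx
    obtain ⟨k, hk, rfl⟩ := Finset.mem_image.mp hx
    exact Finset.mem_compl.mpr (hB k hk)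
  have h1 : (Bᶜ \ K.image f).card = 1 := by
    rw [Finset.card_sdiff_of_subset hsub, Finset.card_image_of_injOn hinj, Finset.card_compl,
      ZMod.card]; omega
  obtain ⟨c, hc⟩ := Finset.card_eq_one.mp h1
  have hcmem : c ∈ Bᶜ \ K.image f := by rw [hc]; simp
  rw [Finset.mem_sdiff, Finset.mem_compl] at hcmem
  refine ⟨c, hcmem.1, ?_⟩
  apply image_eq_compl K f hinj
  · intro k hk hmem
    rcases Finset.mem_insert.mp hmem with h | h
    · exact hcmem.2 (h ▸ Finset.mem_image_of_mem f hk)
    · exact hB k hk h
  · rw [Finset.card_insert_of_notMem hcmem.1]; omega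

theorem sum_of_image {ι : Type*} [DecidableEq ι] (h2 : 2 < p) (K : Finset ι) (f : ι → ZMod p)
    (hinj : Set.InjOn f K) (B : Finset (ZMod p)) (him : K.image f = Bᶜ) :
    ∑ k ∈ K, f k = - ∑ x ∈ B, x := by
  have h1 : ∑ k ∈ K, f k = ∑ x ∈ K.image f, x := by
    rw [Finset.sum_image hinj]
  have h3 := Finset.sum_add_sum_compl B (fun x : ZMod p => x)
  rw [sum_univ_zero h2] at h3
  rw [h1, him]
  linear_combination h3

theorem prod_of_image {ι : Type*} [DecidableEq ι] (K : Finset ι) (f : ι → ZMod p)
    (hinj : Set.InjOn f K) (B : Finset (ZMod p)) (h0 : (0 : ZMod p) ∈ B)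
    (him : K.image f = Bᶜ) :
    (∏ k ∈ K, f k) * ∏ x ∈ B.erase 0, x = -1 := by
  have h1 : ∏ k ∈ K, f k = ∏ x ∈ K.image f, x := by
    rw [Finset.prod_image hinj]
  rw [h1, him, ← prod_erase_zero (p := p)]
  rw [← Finset.prod_union]
  · apply Finset.prod_congr _ (fun _ _ => rfl)
    ext x
    simp only [Finset.mem_union, Finset.mem_compl, Finset.mem_erase, Finset.mem_univ, and_true]
    constructor
    · rintro (h | h)
      · intro hx; exact h (hx ▸ h0)
      · exact h.1
    · intro hx
      by_cases hxB : x ∈ B
      · exact Or.inr ⟨hx, hxB⟩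
      · exact Or.inl hxB
  · rw [Finset.disjoint_left]
    intro x hx hx2
    exact (Finset.mem_compl.mp hx) (Finset.mem_of_mem_erase hx2)

end tools

section core

variable {p : ℕ} [hp : Fact p.Prime] {I : Type*} [Fintype I] [DecidableEq I]
  {a : I → I → ZMod p}

theorem row_missing (hI : Fintype.card I + 1 = p) (hrow : ∀ i, Function.Injective (a i)) {i : I}
    (hd : a i i = 0) : ∃ e : ZMod p, e ≠ 0 ∧ univ.image (a i) = {e}ᶜ := by
  obtain ⟨c, -, hc⟩ := exists_missing (p := p) univ (a i) ((hrow i).injOn) ∅ (by simp)
    (by rw [Finset.card_univ, Finset.card_empty]; omega)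
  have hc' : univ.image (a i) = {c}ᶜ := by simpa using hc
  refine ⟨c, ?_, hc'⟩
  intro h0
  have h1 : (0 : ZMod p) ∈ univ.image (a i) := Finset.mem_image.mpr ⟨i, mem_univ _, hd⟩
  rw [hc', h0] at h1
  simp at h1

theorem offdiag_ne (hrow : ∀ i, Function.Injective (a i)) {i j : I} (hd : a i i = 0)
    (hij : j ≠ i) : a i j ≠ 0 := by
  intro h
  exact hij (hrow i (h.trans hd.symm))

theorem row_prod (hI : Fintype.card I + 1 = p) (hrow : ∀ i, Function.Injective (a i)) {i : I}
    (hd : a i i = 0) {e : ZMod p} (he0 : e ≠ 0) (he : univ.image (a i) = {e}ᶜ) :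
    (∏ j ∈ univ.erase i, a i j) * e = -1 := by
  have h1 : (univ.erase i).image (a i) = ({0, e} : Finset (ZMod p))ᶜ := by
    apply image_eq_compl
    · exact (hrow i).injOn
    · intro k hk hmem
      have hki : k ≠ i := Finset.ne_of_mem_erase hk
      rcases Finset.mem_insert.mp hmem with h | h
      · exact offdiag_ne hrow hd hki h
      · have : a i k ∈ univ.image (a i) := Finset.mem_image_of_mem _ (mem_univ _)
        rw [he] at this
        exact (Finset.mem_compl.mp this) h
    · rw [Finset.card_erase_of_mem (mem_univ _), Finset.card_univ, Finset.card_pair he0.symm]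
      have := hp.out.two_le
      omega
  have h2 := prod_of_image (univ.erase i) (a i) ((hrow i).injOn) {0, e} (by simp) h1
  have h3 : ({0, e} : Finset (ZMod p)).erase 0 = {e} := by
    ext x
    simp only [Finset.mem_erase, Finset.mem_insert, Finset.mem_singleton]
    constructor
    · rintro ⟨hx, rfl | h⟩
      · exact absurd rfl hx
      · exact h
    · rintro rfl; exact ⟨he0, Or.inr rfl⟩
  rw [h3, Finset.prod_singleton] at h2
  exact h2

theorem ratio_inj
    (hrat : ∀ i l, i ≠ l → ∀ j k, j ≠ k → a i j * a l k ≠ a i k * a l j)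
    {i l : I} (hil : i ≠ l) (K : Finset I) (hK : ∀ j ∈ K, a l j ≠ 0) :
    Set.InjOn (fun j => a i j * (a l j)⁻¹) K := by
  intro j hj k hk h
  by_contra hjk
  apply hrat i l hil j k hjk
  have hj0 := hK j hj
  have hk0 := hK k hk
  simp only at h
  field_simp at h
  linear_combination h

theorem ratio_ne_one (hsym : ∀ i j, a i j = a j i) (hrow : ∀ i, Function.Injective (a i))
    {i l j : I} (hil : i ≠ l) (h0 : a l j ≠ 0) : a i j * (a l j)⁻¹ ≠ 1 := by
  intro h
  have h1 : a i j = a l j := by
    field_simp at h
    exact h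
  rw [hsym i j, hsym l j] at h1
  exact hil (hrow j h1)

theorem pair_image (hI : Fintype.card I + 1 = p) (hp3 : 3 < p) (hsym : ∀ i j, a i j = a j i)
    (hrow : ∀ i, Function.Injective (a i))
    (hrat : ∀ i l, i ≠ l → ∀ j k, j ≠ k → a i j * a l k ≠ a i k * a l j)
    {i l : I} (hil : i ≠ l) (hdi : a i i = 0) (hdl : a l l = 0) {ei el : ZMod p}
    (hei0 : ei ≠ 0) (hei : univ.image (a i) = {ei}ᶜ)
    (hel0 : el ≠ 0) (hel : univ.image (a l) = {el}ᶜ) :
    -(ei * el⁻¹) ≠ 1 ∧
    ((univ.erase i).erase l).image (fun j => a i j * (a l j)⁻¹) =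
      (insert (-(ei * el⁻¹)) ({0, 1} : Finset (ZMod p)))ᶜ := by
  have hli : l ∈ univ.erase i := Finset.mem_erase.mpr ⟨hil.symm, mem_univ _⟩
  have hil' : i ∈ univ.erase l := Finset.mem_erase.mpr ⟨hil, mem_univ _⟩
  set K := (univ.erase i).erase l with hKdef
  have hKmem : ∀ j ∈ K, j ≠ i ∧ j ≠ l := by
    intro j hj
    rw [hKdef] at hj
    exact ⟨Finset.ne_of_mem_erase (Finset.mem_of_mem_erase hj), Finset.ne_of_mem_erase hj⟩
  have hKi : ∀ j ∈ K, a i j ≠ 0 := fun j hj => offdiag_ne hrow hdi (hKmem j hj).1
  have hKl : ∀ j ∈ K, a l j ≠ 0 := fun j hj => offdiag_ne hrow hdl (hKmem j hj).2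
  have hcard : K.card + ({0, 1} : Finset (ZMod p)).card + 1 = p := by
    rw [hKdef, Finset.card_erase_of_mem hli, Finset.card_erase_of_mem (mem_univ _),
      Finset.card_univ, Finset.card_pair (zero_ne_one)]
    omega
  have hinj := ratio_inj hrat hil K hKl
  obtain ⟨c, hc, him⟩ := exists_missing K (fun j => a i j * (a l j)⁻¹) hinj {0, 1} (by
    intro j hj hmem
    rcases Finset.mem_insert.mp hmem with h | h
    · exact mul_ne_zero (hKi j hj) (inv_ne_zero (hKl j hj)) h
    · exact ratio_ne_one hsym hrow hil (hKl j hj) (Finset.mem_singleton.mp h)) hcard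
  have hprod := prod_of_image K (fun j => a i j * (a l j)⁻¹) hinj (insert c {0, 1}) (by simp) him
  have hc0 : c ≠ 0 := by rintro rfl; simp at hc
  have hc1 : c ≠ 1 := by rintro rfl; simp at hc
  have hB : (insert c ({0, 1} : Finset (ZMod p))).erase 0 = {c, 1} := by
    ext x
    simp only [Finset.mem_erase, Finset.mem_insert, Finset.mem_singleton]
    constructor
    · rintro ⟨hx, rfl | rfl | h⟩
      · exact Or.inl rfl
      · exact absurd rfl hx
      · exact Or.inr h
    · rintro (rfl | rfl)
      · exact ⟨hc0, Or.inl rfl⟩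
      · exact ⟨one_ne_zero, Or.inr (Or.inr rfl)⟩
  rw [hB, Finset.prod_pair hc1, mul_one, Finset.prod_mul_distrib] at hprod
  have hri := row_prod hI hrow hdi hei0 hei
  have hrl := row_prod hI hrow hdl hel0 hel
  rw [← Finset.mul_prod_erase _ _ hli, ← hKdef] at hri
  rw [← Finset.mul_prod_erase _ _ hil'] at hrl
  have hKK : (univ.erase l).erase i = K := by rw [hKdef, Finset.erase_right_comm]
  rw [hKK, hsym l i] at hrl
  have hPl : (∏ j ∈ K, a l j) ≠ 0 := Finset.prod_ne_zero_iff.mpr hKl
  have hPi : (∏ j ∈ K, a i j) ≠ 0 := Finset.prod_ne_zero_iff.mpr hKi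
  have hail : a i l ≠ 0 := offdiag_ne hrow hdi hil.symm
  rw [Finset.prod_inv_distrib] at hprod
  have hcval : c = -(ei * el⁻¹) := by
    set P := ∏ j ∈ K, a i j
    set Q := ∏ j ∈ K, a l j
    have h1 : P * c = -Q := by
      field_simp at hprod
      linear_combination hprod
    have h2 : P * ei = Q * el := by
      apply mul_left_cancel₀ hail
      linear_combination hri - hrl
    have h3 : P * (c * el) = P * (-ei) := by linear_combination el * h1 + h2
    have h4 := mul_left_cancel₀ hPi h3
    field_simp
    linear_combination h4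
  rw [← hcval]
  exact ⟨hc1, him⟩

/-- A value `v` that does not occur on the diagonal occurs in an even number of rows. -/
theorem even_rows (hsym : ∀ i j, a i j = a j i) (hrow : ∀ i, Function.Injective (a i))
    (v : ZMod p) (hv : ∀ i, a i i ≠ v) :
    Even ((univ.filter (fun i => v ∈ univ.image (a i))).card) := by
  classical
  let G : SimpleGraph I :=
    { Adj := fun i j => a i j = v
      symm := ⟨fun i j h => by rw [hsym j i]; exact h⟩
      loopless := ⟨fun i h => hv i h⟩ }
  have h := G.even_card_odd_degree_vertices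
  have heq : (univ.filter (fun i => Odd (G.degree i))) =
      univ.filter (fun i => v ∈ univ.image (a i)) := by
    apply Finset.filter_congr
    intro i _
    have hle : (G.neighborFinset i).card ≤ 1 := by
      rw [Finset.card_le_one]
      intro x hx y hy
      rw [SimpleGraph.mem_neighborFinset] at hx hy
      exact hrow i ((show a i x = v from hx).trans (show a i y = v from hy).symm)
    rw [← SimpleGraph.card_neighborFinset_eq_degree]
    constructor
    · intro ho
      have hpos : 0 < (G.neighborFinset i).card := by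
        rcases Nat.eq_zero_or_pos (G.neighborFinset i).card with h0 | h0
        · rw [h0] at ho; exact absurd ho (by decide)
        · exact h0
      obtain ⟨x, hx⟩ := Finset.card_pos.mp hpos
      rw [SimpleGraph.mem_neighborFinset] at hx
      exact Finset.mem_image.mpr ⟨x, mem_univ _, hx⟩
    · intro hm
      obtain ⟨x, -, hx⟩ := Finset.mem_image.mp hm
      have hpos : 0 < (G.neighborFinset i).card :=
        Finset.card_pos.mpr ⟨x, by rw [SimpleGraph.mem_neighborFinset]; exact hx⟩
      have h1 : (G.neighborFinset i).card = 1 := by omega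
      rw [h1]; exact odd_one
  rw [heq] at h
  exact h

/-- Type `p - 1`: one nonzero diagonal entry. -/
theorem core_one (hI : Fintype.card I + 1 = p) (hp3 : 3 < p) (hsym : ∀ i j, a i j = a j i)
    (hrow : ∀ i, Function.Injective (a i))
    (hrat : ∀ i l, i ≠ l → ∀ j k, j ≠ k → a i j * a l k ≠ a i k * a l j)
    (z : I) (hz : a z z ≠ 0) (hd : ∀ i, i ≠ z → a i i = 0) : False := by
  have hex : ∀ i, i ≠ z → ∃ e : ZMod p, e ≠ 0 ∧ univ.image (a i) = {e}ᶜ := fun i hi =>
    row_missing hI hrow (hd i hi)
  choose! e he0 he using hex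
  -- the last row has no zero
  have hznz : ∀ j, a z j ≠ 0 := by
    intro j
    by_cases hj : j = z
    · rw [hj]; exact hz
    · rw [hsym]; exact offdiag_ne hrow (hd j hj) (Ne.symm hj)
  have hzim : univ.image (a z) = ({0} : Finset (ZMod p))ᶜ := by
    apply image_eq_compl
    · exact (hrow z).injOn
    · intro j _ h; exact hznz j (Finset.mem_singleton.mp h)
    · rw [Finset.card_univ, Finset.card_singleton]; omega
  have hp2 : 2 < p := by omega
  -- row sums
  have hsumz : ∑ j, a z j = 0 := by
    rw [sum_of_image hp2 univ (a z) ((hrow z).injOn) {0} hzim]; simp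
  have hsum : ∀ i, i ≠ z → ∑ j, a i j = - e i := by
    intro i hi
    rw [sum_of_image hp2 univ (a i) ((hrow i).injOn) {e i} (he i hi)]; simp
  have hcardI : ((Fintype.card I : ℕ) : ZMod p) = -1 := by
    have h1 : ((Fintype.card I + 1 : ℕ) : ZMod p) = 0 := by rw [hI]; exact ZMod.natCast_self p
    push_cast at h1
    linear_combination h1
  -- ratio sums
  have hR : ∀ i l, i ≠ z → l ≠ z →
      ∑ j, a i j * (a l j)⁻¹ = -1 + e i * (e l)⁻¹ - 2 * (if l = i then 1 else 0) := by
    intro i l hi hl
    by_cases hil : i = l
    · subst hil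
      rw [if_pos rfl, mul_inv_cancel₀ (he0 i hi), ← Finset.add_sum_erase _ _ (mem_univ i), hd i hi]
      have : ∑ j ∈ univ.erase i, a i j * (a i j)⁻¹ = ∑ j ∈ univ.erase i, (1 : ZMod p) := by
        apply Finset.sum_congr rfl
        intro j hj
        exact mul_inv_cancel₀ (offdiag_ne hrow (hd i hi) (Finset.ne_of_mem_erase hj))
      rw [this, Finset.sum_const, Finset.card_erase_of_mem (mem_univ _), Finset.card_univ,
        nsmul_eq_mul, Nat.cast_sub (by omega), hcardI]
      push_cast
      ring
    · rw [if_neg (Ne.symm hil)]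
      obtain ⟨h1, him⟩ := pair_image hI hp3 hsym hrow hrat hil (hd i hi) (hd l hl) (he0 i hi)
        (he i hi) (he0 l hl) (he l hl)
      have hli : l ∈ univ.erase i := Finset.mem_erase.mpr ⟨Ne.symm hil, mem_univ _⟩
      rw [← Finset.add_sum_erase _ _ (mem_univ i), ← Finset.add_sum_erase _ _ hli,
        hd i hi, hd l hl, inv_zero, mul_zero, zero_mul, zero_add, zero_add]
      have hs := sum_of_image hp2 ((univ.erase i).erase l) (fun j => a i j * (a l j)⁻¹)
        (ratio_inj hrat hil _ (fun j hj => offdiag_ne hrow (hd l hl)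
          (Finset.ne_of_mem_erase hj))) _ him
      rw [hs]
      have hc0 : -(e i * (e l)⁻¹) ≠ 0 :=
        neg_ne_zero.mpr (mul_ne_zero (he0 i hi) (inv_ne_zero (he0 l hl)))
      rw [Finset.sum_insert (by simp [hc0, h1] ), Finset.sum_pair zero_ne_one]
      ring
  have hRz : ∀ l, ∑ j, a z j * (a l j)⁻¹ = -1 := by
    intro l
    by_cases hl : l = z
    · subst hl
      have : ∑ j, a l j * (a l j)⁻¹ = ∑ j : I, (1 : ZMod p) :=
        Finset.sum_congr rfl (fun j _ => mul_inv_cancel₀ (hznz j))
      rw [this, Finset.sum_const, Finset.card_univ, nsmul_eq_mul, hcardI]; ring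
    · have hinj := ratio_inj hrat (Ne.symm hl) (univ.erase l) (fun j hj =>
        offdiag_ne hrow (hd l hl) (Finset.ne_of_mem_erase hj))
      have him : (univ.erase l).image (fun j => a z j * (a l j)⁻¹) =
          ({0, 1} : Finset (ZMod p))ᶜ := by
        apply image_eq_compl _ _ hinj
        · intro j hj hmem
          have h0 : a l j ≠ 0 := offdiag_ne hrow (hd l hl) (Finset.ne_of_mem_erase hj)
          rcases Finset.mem_insert.mp hmem with h | h
          · exact mul_ne_zero (hznz j) (inv_ne_zero h0) h
          · exact ratio_ne_one hsym hrow (Ne.symm hl) h0 (Finset.mem_singleton.mp h)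
        · rw [Finset.card_erase_of_mem (mem_univ _), Finset.card_univ,
            Finset.card_pair zero_ne_one]; omega
      have hs := sum_of_image hp2 _ _ hinj _ him
      rw [← Finset.add_sum_erase _ _ (mem_univ l), hd l hl, inv_zero, mul_zero, zero_add, hs,
        Finset.sum_pair zero_ne_one]
      ring
  have hRz' : ∀ i, i ≠ z → ∑ j, a i j * (a z j)⁻¹ = -1 := by
    intro i hi
    have hinj := ratio_inj hrat hi (univ.erase i) (fun j _ => hznz j)
    have him : (univ.erase i).image (fun j => a i j * (a z j)⁻¹) =
        ({0, 1} : Finset (ZMod p))ᶜ := by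
      apply image_eq_compl _ _ hinj
      · intro j hj hmem
        have h0 : a i j ≠ 0 := offdiag_ne hrow (hd i hi) (Finset.ne_of_mem_erase hj)
        rcases Finset.mem_insert.mp hmem with h | h
        · exact mul_ne_zero h0 (inv_ne_zero (hznz j)) h
        · exact ratio_ne_one hsym hrow hi (hznz j) (Finset.mem_singleton.mp h)
      · rw [Finset.card_erase_of_mem (mem_univ _), Finset.card_univ,
          Finset.card_pair zero_ne_one]; omega
    have hs := sum_of_image hp2 _ _ hinj _ him
    rw [← Finset.add_sum_erase _ _ (mem_univ i), hd i hi, zero_mul, zero_add, hs,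
      Finset.sum_pair zero_ne_one]
    ring
  -- the key identity
  have hkey : ∀ i, i ≠ z →
      e i = e i * (∑ l ∈ univ.erase z, a l z * (e l)⁻¹) - 2 * a i z := by
    intro i hi
    have hA : ∑ l, ∑ j, a i j * (a l j)⁻¹ * a l z = e i := by
      rw [Finset.sum_comm]
      have : ∀ j, ∑ l, a i j * (a l j)⁻¹ * a l z = a i j * (-1) := by
        intro j
        rw [← hRz j, Finset.mul_sum]
        apply Finset.sum_congr rfl
        intro l _
        rw [hsym l j, hsym l z]; ring
      simp_rw [this]
      rw [← Finset.sum_mul, hsum i hi]; ring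
    have hB : ∑ l, ∑ j, a i j * (a l j)⁻¹ * a l z =
        e i * (∑ l ∈ univ.erase z, a l z * (e l)⁻¹) - 2 * a i z := by
      simp_rw [← Finset.sum_mul]
      rw [← Finset.add_sum_erase _ _ (mem_univ z), hRz' i hi]
      have h1 : ∑ l ∈ univ.erase z, (∑ j, a i j * (a l j)⁻¹) * a l z =
          ∑ l ∈ univ.erase z, (-(a l z) + e i * (a l z * (e l)⁻¹)
            - (if l = i then 2 * a l z else 0)) := by
        apply Finset.sum_congr rfl
        intro l hl
        rw [hR i l hi (Finset.ne_of_mem_erase hl)]
        split_ifs <;> ring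
      rw [h1, Finset.sum_sub_distrib, Finset.sum_add_distrib, ← Finset.mul_sum,
        Finset.sum_ite_eq' , if_pos (Finset.mem_erase.mpr ⟨hi, mem_univ _⟩)]
      have h2 : ∑ l ∈ univ.erase z, -(a l z) = a z z := by
        rw [Finset.sum_neg_distrib]
        have h3 := Finset.add_sum_erase univ (fun l => a l z) (mem_univ z)
        have h4 : ∑ l, a l z = 0 := by
          rw [← hsumz]; exact Finset.sum_congr rfl (fun l _ => hsym l z)
        rw [h4] at h3
        linear_combination -h3
      rw [h2]; ring
    rw [← hB, hA]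
  -- hence `e` is injective off `z`
  have hinj : ∀ i l, i ≠ z → l ≠ z → e i = e l → i = l := by
    intro i l hi hl h
    have h1 := hkey i hi
    have h2 := hkey l hl
    rw [← h] at h2
    have h3 : (2 : ZMod p) * (a i z - a l z) = 0 := by linear_combination h1 - h2
    have h20 : (2 : ZMod p) ≠ 0 := by
      intro h0
      have : ((2 : ℕ) : ZMod p) = 0 := by exact_mod_cast h0
      rw [ZMod.natCast_eq_zero_iff] at this
      exact absurd (Nat.le_of_dvd (by norm_num) this) (by omega)
    rcases mul_eq_zero.mp h3 with h4 | h4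
    · exact absurd h4 h20
    · have h5 : a i z = a l z := by linear_combination h4
      rw [hsym i z, hsym l z] at h5
      exact hrow z h5
  have hodd : Odd p := hp.out.odd_of_ne_two (by omega)
  -- there is a row whose missing value is not the last diagonal entry
  obtain ⟨i₀, hi₀, hei₀⟩ : ∃ i, i ≠ z ∧ e i ≠ a z z := by
    by_contra hcon
    push Not at hcon
    have h1 : 1 < (univ.erase z).card := by
      rw [Finset.card_erase_of_mem (mem_univ _), Finset.card_univ]; omega
    obtain ⟨x, hx, y, hy, hxy⟩ := Finset.one_lt_card.mp h1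
    have hxz := Finset.ne_of_mem_erase hx
    have hyz := Finset.ne_of_mem_erase hy
    exact hxy (hinj x y hxz hyz ((hcon x hxz).trans (hcon y hyz).symm))
  have hev := even_rows hsym hrow (e i₀) (by
    intro i h
    by_cases hi : i = z
    · rw [hi] at h; exact hei₀ h.symm
    · rw [hd i hi] at h; exact he0 i₀ hi₀ h.symm)
  have hset : (univ.filter (fun i => e i₀ ∈ univ.image (a i))) = univ.erase i₀ := by
    ext i
    simp only [Finset.mem_filter, Finset.mem_univ, true_and, Finset.mem_erase, and_true]
    by_cases hi : i = z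
    · rw [hi, hzim]
      simp only [Finset.mem_compl, Finset.mem_singleton]
      exact ⟨fun _ => Ne.symm hi₀, fun _ => he0 i₀ hi₀⟩
    · rw [he i hi]
      simp only [Finset.mem_compl, Finset.mem_singleton]
      constructor
      · intro h1 h2; exact h1 (by rw [h2])
      · intro h1 h2; exact h1 (hinj i i₀ hi hi₀ h2.symm)
  rw [hset, Finset.card_erase_of_mem (mem_univ _), Finset.card_univ] at hev
  obtain ⟨k, hk⟩ := hev
  obtain ⟨m, hm⟩ := hodd
  omega

/-- Type `p`: all diagonal entries vanish. -/
theorem core_zero (hI : Fintype.card I + 1 = p) (hp5 : 5 < p) (hsym : ∀ i j, a i j = a j i)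
    (hrow : ∀ i, Function.Injective (a i))
    (hrat : ∀ i l, i ≠ l → ∀ j k, j ≠ k → a i j * a l k ≠ a i k * a l j)
    (hd : ∀ i, a i i = 0) : False := by
  have hex : ∀ i, ∃ e : ZMod p, e ≠ 0 ∧ univ.image (a i) = {e}ᶜ := fun i =>
    row_missing hI hrow (hd i)
  choose e he0 he using hex
  have hodd : Odd p := hp.out.odd_of_ne_two (by omega)
  have hcard : Fintype.card I = p - 1 := by omega
  -- counting triples
  have hP : ∀ w : ZMod p, w ≠ 0 → w ≠ -1 →
      ((univ : Finset (I × I)).filter (fun x => x.1 ≠ x.2 ∧ e x.1 = w * e x.2)).card = p - 1 := by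
    intro w hw0 hw1
    set u : ZMod p := -w with hu
    have hu0 : u ≠ 0 := neg_ne_zero.mpr hw0
    have hu1 : u ≠ 1 := by
      intro h; apply hw1; rw [← h, hu, neg_neg]
    -- count with the column fixed
    have hB : ∀ j, (univ.filter (fun x : I × I =>
        a x.1 j ≠ 0 ∧ a x.2 j ≠ 0 ∧ a x.1 j = u * a x.2 j)).card = p - 3 := by
      intro j
      have h1 : (univ.filter (fun x : I × I =>
          a x.1 j ≠ 0 ∧ a x.2 j ≠ 0 ∧ a x.1 j = u * a x.2 j)).card =
          (({0, e j, u⁻¹ * e j} : Finset (ZMod p))ᶜ).card := by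
        apply Finset.card_bij (fun x _ => a x.2 j)
        · intro x hx
          simp only [Finset.mem_filter, Finset.mem_univ, true_and] at hx
          obtain ⟨h1, h2, h3⟩ := hx
          simp only [Finset.mem_compl, Finset.mem_insert, Finset.mem_singleton]
          have hx1 : a x.1 j ≠ e j := by
            have : a j x.1 ∈ univ.image (a j) := Finset.mem_image_of_mem _ (mem_univ _)
            rw [he j] at this
            rw [hsym]; simpa using this
          have hx2 : a x.2 j ≠ e j := by
            have : a j x.2 ∈ univ.image (a j) := Finset.mem_image_of_mem _ (mem_univ _)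
            rw [he j] at this
            rw [hsym]; simpa using this
          rintro (h | h | h)
          · exact h2 h
          · exact hx2 h
          · apply hx1
            rw [h3, h, ← mul_assoc, mul_inv_cancel₀ hu0, one_mul]
        · intro x hx y hy hxy
          simp only [Finset.mem_filter, Finset.mem_univ, true_and] at hx hy
          have h2 : x.2 = y.2 := by
            rw [hsym x.2 j, hsym y.2 j] at hxy; exact hrow j hxy
          have h1 : x.1 = y.1 := by
            apply hrow j
            rw [hsym j x.1, hsym j y.1, hx.2.2, hy.2.2, h2]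
          exact Prod.ext h1 h2
        · intro y hy
          simp only [Finset.mem_compl, Finset.mem_insert, Finset.mem_singleton, not_or] at hy
          obtain ⟨hy0, hye, hyu⟩ := hy
          have hm1 : y ∈ univ.image (a j) := by rw [he j]; simpa using hye
          have hm2 : u * y ∈ univ.image (a j) := by
            rw [he j]
            simp only [Finset.mem_compl, Finset.mem_singleton]
            intro h; apply hyu
            rw [← h, ← mul_assoc, inv_mul_cancel₀ hu0, one_mul]
          obtain ⟨l, -, hl⟩ := Finset.mem_image.mp hm1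
          obtain ⟨i, -, hi⟩ := Finset.mem_image.mp hm2
          refine ⟨(i, l), ?_, ?_⟩
          · simp only [Finset.mem_filter, Finset.mem_univ, true_and]
            rw [hsym i j, hsym l j, hi, hl]
            exact ⟨mul_ne_zero hu0 hy0, hy0, rfl⟩
          · simp only
            rw [hsym l j, hl]
      rw [h1, Finset.card_compl, ZMod.card]
      have hne1 : e j ≠ u⁻¹ * e j := by
        intro h
        apply hu1
        have h2 : u * e j = e j := by
          nth_rewrite 1 [h]
          rw [← mul_assoc, mul_inv_cancel₀ hu0, one_mul]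
        have h3 : (u - 1) * e j = 0 := by linear_combination h2
        rcases mul_eq_zero.mp h3 with h4 | h4
        · linear_combination h4
        · exact absurd h4 (he0 j)
      have h3 : ({0, e j, u⁻¹ * e j} : Finset (ZMod p)).card = 3 := by
        rw [Finset.card_eq_three]
        exact ⟨0, e j, u⁻¹ * e j, (he0 j).symm,
          (mul_ne_zero (inv_ne_zero hu0) (he0 j)).symm, hne1, rfl⟩
      rw [h3]
    -- count with the pair of rows fixed
    have hA : ∀ x : I × I, (univ.filter (fun j =>
        a x.1 j ≠ 0 ∧ a x.2 j ≠ 0 ∧ a x.1 j = u * a x.2 j)).card =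
        if x.1 ≠ x.2 ∧ ¬ (e x.1 = w * e x.2) then 1 else 0 := by
      intro x
      by_cases hx : x.1 = x.2
      · rw [if_neg (fun h => h.1 hx), Finset.card_eq_zero, Finset.filter_eq_empty_iff]
        rintro j - ⟨h1, h2, h3⟩
        rw [hx] at h3
        have h4 : (u - 1) * a x.2 j = 0 := by linear_combination -h3
        rcases mul_eq_zero.mp h4 with h5 | h5
        · exact hu1 (by linear_combination h5)
        · exact h2 h5
      · obtain ⟨h1, him⟩ := pair_image hI (by omega) hsym hrow hrat hx (hd x.1) (hd x.2)
          (he0 x.1) (he x.1) (he0 x.2) (he x.2)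
        have hiff : (∃ j, a x.1 j ≠ 0 ∧ a x.2 j ≠ 0 ∧ a x.1 j = u * a x.2 j) ↔
            ¬ (e x.1 = w * e x.2) := by
          have hmem : (∃ j, a x.1 j ≠ 0 ∧ a x.2 j ≠ 0 ∧ a x.1 j = u * a x.2 j) ↔
              u ∈ ((univ.erase x.1).erase x.2).image (fun j => a x.1 j * (a x.2 j)⁻¹) := by
            rw [Finset.mem_image]
            constructor
            · rintro ⟨j, h1, h2, h3⟩
              refine ⟨j, ?_, ?_⟩
              · rw [Finset.mem_erase, Finset.mem_erase]
                refine ⟨?_, ?_, mem_univ _⟩
                · rintro rfl; exact h2 (hd _)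
                · rintro rfl; exact h1 (hd _)
              · rw [h3, mul_assoc, mul_inv_cancel₀ h2, mul_one]
            · rintro ⟨j, hj, h⟩
              rw [Finset.mem_erase, Finset.mem_erase] at hj
              have h2 : a x.2 j ≠ 0 := offdiag_ne hrow (hd _) hj.1
              refine ⟨j, offdiag_ne hrow (hd _) hj.2.1, h2, ?_⟩
              rw [← h, mul_assoc, inv_mul_cancel₀ h2, mul_one]
          rw [hmem, him]
          simp only [Finset.mem_compl, Finset.mem_insert, Finset.mem_singleton]
          constructor
          · intro h h2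
            apply h
            left
            rw [hu, h2, mul_assoc, mul_inv_cancel₀ (he0 x.2), mul_one]
          · intro h h2
            rcases h2 with h2 | h2 | h2
            · apply h
              have h3 : w = e x.1 * (e x.2)⁻¹ := by rw [hu] at h2; linear_combination -h2
              rw [h3, mul_assoc, inv_mul_cancel₀ (he0 x.2), mul_one]
            · exact hu0 h2
            · exact hu1 h2
        by_cases hw : e x.1 = w * e x.2
        · rw [if_neg (fun h => h.2 hw), Finset.card_eq_zero, Finset.filter_eq_empty_iff]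
          intro j _ h
          exact (hiff.mp ⟨j, h⟩) hw
        · rw [if_pos ⟨hx, hw⟩, Finset.card_eq_one]
          obtain ⟨j, hj⟩ := hiff.mpr hw
          refine ⟨j, ?_⟩
          ext k
          simp only [Finset.mem_filter, Finset.mem_univ, true_and, Finset.mem_singleton]
          constructor
          · rintro ⟨h1, h2, h3⟩
            by_contra hkj
            apply hrat x.1 x.2 hx k j hkj
            rw [h3, hj.2.2]; ring
          · rintro rfl; exact hj
    -- double counting
    have hdc : (p - 1) * (p - 3) =
        ((univ : Finset (I × I)).filter (fun x => x.1 ≠ x.2 ∧ ¬ (e x.1 = w * e x.2))).card := by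
      have h1 : ∑ j : I, (univ.filter (fun x : I × I =>
          a x.1 j ≠ 0 ∧ a x.2 j ≠ 0 ∧ a x.1 j = u * a x.2 j)).card =
          ∑ x : I × I, (univ.filter (fun j =>
          a x.1 j ≠ 0 ∧ a x.2 j ≠ 0 ∧ a x.1 j = u * a x.2 j)).card := by
        simp_rw [Finset.card_filter]
        rw [Finset.sum_comm]
      simp_rw [hB, hA] at h1
      rw [Finset.sum_const, Finset.card_univ, hcard, smul_eq_mul] at h1
      rw [h1, Finset.card_filter]
    have hoff : ((univ : Finset (I × I)).filter (fun x => x.1 ≠ x.2)).card =
        (p - 1) * (p - 2) := by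
      have h1 : ((univ : Finset (I × I)).filter (fun x => x.1 ≠ x.2)) =
          (univ : Finset I).offDiag := by
        ext x; simp [Finset.mem_offDiag]
      rw [h1, Finset.offDiag_card, Finset.card_univ, hcard]
      obtain ⟨q, rfl⟩ : ∃ q, p = q + 2 := ⟨p - 2, by omega⟩
      have e1 : q + 2 - 1 = q + 1 := by omega
      have e2 : q + 2 - 2 = q := by omega
      rw [e1, e2, Nat.mul_succ (q+1) q]
      omega
    have hsplit := Finset.card_filter_add_card_filter_not (s := ((univ : Finset (I × I)).filter (fun x => x.1 ≠ x.2)))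
      (p := fun x => e x.1 = w * e x.2)
    rw [Finset.filter_filter, Finset.filter_filter, hoff, ← hdc] at hsplit
    obtain ⟨q, rfl⟩ : ∃ q, p = q + 3 := ⟨p - 3, by omega⟩
    have e1 : q + 3 - 1 = q + 2 := by omega
    have e2 : q + 3 - 2 = q + 1 := by omega
    have e3 : q + 3 - 3 = q := by omega
    rw [e1, e2, e3, Nat.mul_succ] at hsplit
    rw [e1]
    omega
  have hneg : ∀ i l, e i ≠ - e l := by
    intro i l h
    by_cases hil : i = l
    · subst hil
      have h2 : (2 : ZMod p) * e i = 0 := by linear_combination h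
      rcases mul_eq_zero.mp h2 with h3 | h3
      · have : ((2 : ℕ) : ZMod p) = 0 := by exact_mod_cast h3
        rw [ZMod.natCast_eq_zero_iff] at this
        exact absurd (Nat.le_of_dvd (by norm_num) this) (by omega)
      · exact he0 i h3
    -- sum over all quotients
    have hoff : ((univ : Finset (I × I)).filter (fun x => x.1 ≠ x.2)).card =
        (p - 1) * (p - 2) := by
      have h1 : ((univ : Finset (I × I)).filter (fun x => x.1 ≠ x.2)) =
          (univ : Finset I).offDiag := by
        ext x; simp [Finset.mem_offDiag]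
      rw [h1, Finset.offDiag_card, Finset.card_univ, hcard]
      obtain ⟨q, rfl⟩ : ∃ q, p = q + 2 := ⟨p - 2, by omega⟩
      have e1 : q + 2 - 1 = q + 1 := by omega
      have e2 : q + 2 - 2 = q := by omega
      rw [e1, e2, Nat.mul_succ (q+1) q]
      omega
    have hsum := Finset.card_eq_sum_card_fiberwise
      (f := fun x : I × I => e x.1 * (e x.2)⁻¹)
      (s := (univ : Finset (I × I)).filter (fun x => x.1 ≠ x.2))
      (t := (univ : Finset (ZMod p)).erase 0) (by
        intro x _
        simp only [Finset.coe_erase, Finset.coe_univ, Set.mem_sdiff, Set.mem_univ,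
          Set.mem_singleton_iff, true_and]
        exact mul_ne_zero (he0 _) (inv_ne_zero (he0 _)))
    have hfib : ∀ w : ZMod p, w ≠ 0 → ((univ : Finset (I × I)).filter
        (fun x => x.1 ≠ x.2)).filter (fun x => e x.1 * (e x.2)⁻¹ = w) =
        (univ : Finset (I × I)).filter (fun x => x.1 ≠ x.2 ∧ e x.1 = w * e x.2) := by
      intro w _
      rw [Finset.filter_filter]
      apply Finset.filter_congr
      intro x _
      constructor
      · rintro ⟨h1, h2⟩
        refine ⟨h1, ?_⟩
        rw [← h2, mul_assoc, inv_mul_cancel₀ (he0 _), mul_one]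
      · rintro ⟨h1, h2⟩
        refine ⟨h1, ?_⟩
        rw [h2, mul_assoc, mul_inv_cancel₀ (he0 _), mul_one]
    have hm1 : (-1 : ZMod p) ∈ (univ : Finset (ZMod p)).erase 0 :=
      Finset.mem_erase.mpr ⟨neg_ne_zero.mpr one_ne_zero, mem_univ _⟩
    rw [hoff, ← Finset.add_sum_erase _ _ hm1] at hsum
    have hrest : ∑ w ∈ (univ.erase (0 : ZMod p)).erase (-1), (((univ : Finset (I × I)).filter
        (fun x => x.1 ≠ x.2)).filter (fun x => e x.1 * (e x.2)⁻¹ = w)).card =
        (p - 2) * (p - 1) := by
      have h1 : ∀ w ∈ (univ.erase (0 : ZMod p)).erase (-1), (((univ : Finset (I × I)).filter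
        (fun x => x.1 ≠ x.2)).filter (fun x => e x.1 * (e x.2)⁻¹ = w)).card = p - 1 := by
        intro w hw
        rw [Finset.mem_erase, Finset.mem_erase] at hw
        rw [hfib w hw.2.1, hP w hw.2.1 hw.1]
      rw [Finset.sum_congr rfl h1, Finset.sum_const, smul_eq_mul,
        Finset.card_erase_of_mem hm1, Finset.card_erase_of_mem (mem_univ _), Finset.card_univ,
        ZMod.card]
      congr 1
    rw [hrest, hfib (-1) (neg_ne_zero.mpr one_ne_zero), Nat.mul_comm (p - 2) (p - 1)] at hsum
    have hz : ((univ : Finset (I × I)).filter (fun x => x.1 ≠ x.2 ∧ e x.1 = -1 * e x.2)).card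
        = 0 := by omega
    rw [Finset.card_eq_zero, Finset.filter_eq_empty_iff] at hz
    exact hz (mem_univ (i, l)) ⟨hil, by simp only; rw [h]; ring⟩
  -- fibres
  have hnpar : ∀ v : ZMod p, Even ((univ.filter (fun i => e i = v)).card) := by
    intro v
    by_cases hv : v = 0
    · have : (univ.filter (fun i => e i = v)) = ∅ := by
        rw [Finset.filter_eq_empty_iff]
        intro i _ h; exact he0 i (h.trans hv)
      rw [this]; simp
    · have h1 := even_rows hsym hrow v (fun i h => hv (h.symm.trans (hd i)))
      have h2 : (univ.filter (fun i => v ∈ univ.image (a i))) =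
          univ.filter (fun i => ¬ (e i = v)) := by
        apply Finset.filter_congr
        intro i _
        rw [he i]
        simp only [Finset.mem_compl, Finset.mem_singleton]
        exact ⟨fun h1 h2 => h1 h2.symm, fun h1 h2 => h1 h2.symm⟩
      rw [h2] at h1
      have h3 := Finset.card_filter_add_card_filter_not (s := (univ : Finset I))
        (p := fun i => e i = v)
      rw [Finset.card_univ, hcard] at h3
      obtain ⟨m, hm⟩ := hodd
      obtain ⟨k, hk⟩ := h1
      exact ⟨m - k, by omega⟩
  have hnsum : ∑ v : ZMod p, (univ.filter (fun i => e i = v)).card = p - 1 := by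
    have h1 := Finset.card_eq_sum_card_fiberwise (f := e) (s := (univ : Finset I))
      (t := (univ : Finset (ZMod p))) (fun _ _ => by simp)
    rw [Finset.card_univ, hcard] at h1
    exact h1.symm
  -- for every `w`, count pairs by fibres
  have hpairs : ∀ w : ZMod p, ((univ : Finset (I × I)).filter (fun x => e x.1 = w * e x.2)).card =
      ∑ v : ZMod p, (univ.filter (fun i => e i = w * v)).card *
        (univ.filter (fun i => e i = v)).card := by
    intro w
    have h1 := Finset.card_eq_sum_card_fiberwise (f := fun x : I × I => e x.2)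
      (s := (univ : Finset (I × I)).filter (fun x => e x.1 = w * e x.2))
      (t := (univ : Finset (ZMod p))) (fun _ _ => by simp)
    rw [h1]
    apply Finset.sum_congr rfl
    intro v _
    rw [← Finset.card_product]
    congr 1
    ext x
    simp only [Finset.mem_filter, Finset.mem_univ, true_and, Finset.mem_product]
    constructor
    · rintro ⟨h1, h2⟩; rw [h2] at h1; exact ⟨h1, h2⟩
    · rintro ⟨h1, h2⟩; rw [h2]; exact ⟨h1, rfl⟩
  have hn2 : ∀ v : ZMod p, (univ.filter (fun i => e i = v)).card = 0 ∨
      (univ.filter (fun i => e i = v)).card = 2 := by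
    have h1 := hpairs 1
    have h2 := hP 1 one_ne_zero (by
      intro h
      have h3 : (2 : ZMod p) = 0 := by linear_combination h
      have : ((2 : ℕ) : ZMod p) = 0 := by exact_mod_cast h3
      rw [ZMod.natCast_eq_zero_iff] at this
      exact absurd (Nat.le_of_dvd (by norm_num) this) (by omega))
    have h3 : ((univ : Finset (I × I)).filter (fun x => e x.1 = 1 * e x.2)).card =
        2 * (p - 1) := by
      have h4 := Finset.card_filter_add_card_filter_not
        (s := (univ : Finset (I × I)).filter (fun x => e x.1 = 1 * e x.2))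
        (p := fun x => x.1 = x.2)
      rw [← h4, Finset.filter_filter, Finset.filter_filter]
      have h5 : ((univ : Finset (I × I)).filter (fun x => e x.1 = 1 * e x.2 ∧ ¬ x.1 = x.2)) =
          (univ : Finset (I × I)).filter (fun x => x.1 ≠ x.2 ∧ e x.1 = 1 * e x.2) := by
        apply Finset.filter_congr
        intro x _; exact and_comm
      have h6 : ((univ : Finset (I × I)).filter (fun x => e x.1 = 1 * e x.2 ∧ x.1 = x.2)) =
          (univ : Finset I).diag := by
        ext x
        simp only [Finset.mem_filter, Finset.mem_univ, true_and, Finset.mem_diag]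
        constructor
        · rintro ⟨_, h⟩; exact h
        · intro h; rw [h]; simp
      rw [h5, h2, h6, Finset.diag_card, Finset.card_univ, hcard]
      ring
    rw [h3] at h1
    simp only [one_mul] at h1
    have h7 : ∑ v : ZMod p, 2 * (univ.filter (fun i => e i = v)).card =
        ∑ v : ZMod p, (univ.filter (fun i => e i = v)).card *
          (univ.filter (fun i => e i = v)).card := by
      rw [← h1, ← Finset.mul_sum, hnsum]
    have hle : ∀ v ∈ (univ : Finset (ZMod p)), 2 * (univ.filter (fun i => e i = v)).card ≤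
        (univ.filter (fun i => e i = v)).card * (univ.filter (fun i => e i = v)).card := by
      intro v _
      obtain ⟨k, hk⟩ := hnpar v
      rw [hk]
      rcases Nat.eq_zero_or_pos k with h0 | h0
      · rw [h0]
      · nlinarith
    have h8 := (Finset.sum_eq_sum_iff_of_le hle).mp h7
    intro v
    have h9 := h8 v (mem_univ v)
    rcases Nat.eq_zero_or_pos (univ.filter (fun i => e i = v)).card with h0 | h0
    · exact Or.inl h0
    · right
      exact (Nat.eq_of_mul_eq_mul_right h0 h9).symm
  -- the set of missing values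
  set A : Finset (ZMod p) := univ.image e with hAdef
  have hnA : ∀ v, (univ.filter (fun i => e i = v)).card = if v ∈ A then 2 else 0 := by
    intro v
    by_cases hv : v ∈ A
    · rw [if_pos hv]
      obtain ⟨i, -, hi⟩ := Finset.mem_image.mp hv
      rcases hn2 v with h | h
      · rw [Finset.card_eq_zero, Finset.filter_eq_empty_iff] at h
        exact absurd hi (h (mem_univ i))
      · exact h
    · rw [if_neg hv, Finset.card_eq_zero, Finset.filter_eq_empty_iff]
      intro i _ h
      exact hv (Finset.mem_image.mpr ⟨i, mem_univ _, h⟩)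
  have hAcard : 2 * A.card = p - 1 := by
    rw [← hnsum]
    simp_rw [hnA]
    rw [← Finset.sum_filter, Finset.sum_const, smul_eq_mul, Finset.filter_mem_eq_inter,
      Finset.univ_inter, mul_comm]
  have hA0 : ∀ v ∈ A, v ≠ 0 := by
    intro v hv
    obtain ⟨i, -, hi⟩ := Finset.mem_image.mp hv
    rw [← hi]; exact he0 i
  have hAneg : ∀ v ∈ A, -v ∉ A := by
    intro v hv hv'
    obtain ⟨i, -, hi⟩ := Finset.mem_image.mp hv
    obtain ⟨l, -, hl⟩ := Finset.mem_image.mp hv'
    exact hneg l i (by rw [hl, hi])
  have hcover : ∀ x : ZMod p, x ≠ 0 → x ∉ A → -x ∈ A := by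
    intro x hx0 hx
    have hdisj : Disjoint A (A.image (fun v => -v)) := by
      rw [Finset.disjoint_left]
      intro v hv hv'
      obtain ⟨w, hw, hwv⟩ := Finset.mem_image.mp hv'
      exact hAneg w hw (by rw [hwv]; exact hv)
    have hcardneg : (A.image (fun v => -v)).card = A.card :=
      Finset.card_image_of_injective _ neg_injective
    have hunion : A ∪ A.image (fun v => -v) = univ.erase 0 := by
      apply Finset.eq_of_subset_of_card_le
      · intro v hv
        rw [Finset.mem_erase]
        refine ⟨?_, mem_univ _⟩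
        rcases Finset.mem_union.mp hv with h | h
        · exact hA0 v h
        · obtain ⟨w, hw, rfl⟩ := Finset.mem_image.mp h
          exact neg_ne_zero.mpr (hA0 w hw)
      · rw [Finset.card_union_of_disjoint hdisj, hcardneg, Finset.card_erase_of_mem (mem_univ _),
          Finset.card_univ, ZMod.card]
        omega
    have hxm : x ∈ A ∪ A.image (fun v => -v) := by
      rw [hunion]; exact Finset.mem_erase.mpr ⟨hx0, mem_univ _⟩
    rcases Finset.mem_union.mp hxm with h | h
    · exact absurd h hx
    · obtain ⟨w, hw, rfl⟩ := Finset.mem_image.mp h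
      rw [neg_neg]; exact hw
  have hinter : ∀ w : ZMod p, w ≠ 0 → w ≠ 1 → w ≠ -1 →
      4 * (A.filter (fun v => w * v ∈ A)).card = p - 1 := by
    intro w h0 h1 h2
    have h3 := hpairs w
    have h4 : ((univ : Finset (I × I)).filter (fun x => e x.1 = w * e x.2)).card = p - 1 := by
      rw [← hP w h0 h2]
      congr 1
      apply Finset.filter_congr
      intro x _
      constructor
      · intro h
        refine ⟨?_, h⟩
        intro hx
        rw [hx] at h
        have h5 : (w - 1) * e x.2 = 0 := by linear_combination -h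
        rcases mul_eq_zero.mp h5 with h6 | h6
        · exact h1 (by linear_combination h6)
        · exact he0 _ h6
      · exact fun h => h.2
    rw [h4] at h3
    rw [h3]
    simp_rw [hnA]
    have h5 : ∀ v : ZMod p, ((if w * v ∈ A then 2 else 0) * if v ∈ A then 2 else 0) =
        if v ∈ A.filter (fun v => w * v ∈ A) then 4 else 0 := by
      intro v
      simp only [Finset.mem_filter]
      split_ifs <;> simp_all
    simp_rw [h5]
    rw [← Finset.sum_filter, Finset.sum_const, smul_eq_mul, Finset.filter_mem_eq_inter,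
      Finset.univ_inter, mul_comm]
  -- product formula
  obtain ⟨k, hk⟩ : ∃ k, p - 1 = 4 * k := by
    have hg : ∃ w : ZMod p, w ≠ 0 ∧ w ≠ 1 ∧ w ≠ -1 := by
      by_contra hcon
      push Not at hcon
      have hsub : (univ : Finset (ZMod p)) ⊆ {0, 1, -1} := by
        intro x _
        simp only [Finset.mem_insert, Finset.mem_singleton]
        by_cases hx0 : x = 0
        · exact Or.inl hx0
        · by_cases hx1 : x = 1
          · exact Or.inr (Or.inl hx1)
          · exact Or.inr (Or.inr (hcon x hx0 hx1))
      have h1 := Finset.card_le_card hsub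
      have h2 := Finset.card_le_three (a := (0 : ZMod p)) (b := 1) (c := -1)
      rw [Finset.card_univ, ZMod.card] at h1
      omega
    obtain ⟨w, h0, h1, h2⟩ := hg
    exact ⟨_, (hinter w h0 h1 h2).symm⟩
  have hpow : ∀ w : ZMod p, w ≠ 0 → w ≠ 1 → w ≠ -1 → w ^ A.card = (-1) ^ k := by
    intro w h0 h1 h2
    have hk1 : (A.filter (fun v => w * v ∈ A)).card = k := by
      have := hinter w h0 h1 h2
      omega
    have hk2 : (A.filter (fun v => ¬ (w * v ∈ A))).card = k := by
      have := Finset.card_filter_add_card_filter_not (s := A) (p := fun v => w * v ∈ A)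
      omega
    let s : ZMod p → ZMod p := fun v => if w * v ∈ A then w * v else -(w * v)
    have hsA : ∀ v ∈ A, s v ∈ A := by
      intro v hv
      by_cases h : w * v ∈ A
      · simp only [s, if_pos h]; exact h
      · simp only [s, if_neg h]
        exact hcover _ (mul_ne_zero h0 (hA0 v hv)) h
    have hsinj : Set.InjOn s A := by
      intro v hv v' hv' h
      have hcases : w * v = w * v' ∨ w * v = -(w * v') := by
        simp only [s] at h
        split_ifs at h
        · exact Or.inl h
        · exact Or.inr h
        · right; rw [← h, neg_neg]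
        · left; exact neg_injective h
      rcases hcases with h | h
      · exact mul_left_cancel₀ h0 h
      · exfalso
        have h3 : v = -v' := by
          apply mul_left_cancel₀ h0
          rw [h]; ring
        exact hAneg v' hv' (h3 ▸ hv)
    have himg : A.image s = A := by
      apply Finset.eq_of_subset_of_card_le
      · intro x hx
        obtain ⟨v, hv, rfl⟩ := Finset.mem_image.mp hx
        exact hsA v hv
      · rw [Finset.card_image_of_injOn hsinj]
    have hprod1 : ∏ v ∈ A, s v = ∏ v ∈ A, v := by
      rw [← Finset.prod_image (f := fun x => x) hsinj, himg]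
    have hprod2 : ∏ v ∈ A, s v = (w ^ A.card * ∏ v ∈ A, v) * (-1) ^ k := by
      have h3 : ∀ v ∈ A, s v = (w * v) * (if ¬ (w * v ∈ A) then -1 else 1) := by
        intro v _
        simp only [s]
        split_ifs <;> ring
      rw [Finset.prod_congr rfl h3, Finset.prod_mul_distrib, Finset.prod_mul_distrib,
        Finset.prod_const, ← Finset.prod_filter, Finset.prod_const, hk2]
    have hne : (∏ v ∈ A, v) ≠ 0 := Finset.prod_ne_zero_iff.mpr hA0
    rw [hprod1] at hprod2
    have h3 : w ^ A.card * (-1) ^ k = 1 := by
      apply mul_right_cancel₀ hne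
      linear_combination -hprod2
    have h4 : ((-1 : ZMod p) ^ k) * (-1) ^ k = 1 := by
      rw [← mul_pow]; simp
    calc w ^ A.card = w ^ A.card * ((-1) ^ k * (-1) ^ k) := by rw [h4, mul_one]
      _ = (w ^ A.card * (-1) ^ k) * (-1) ^ k := by ring
      _ = (-1) ^ k := by rw [h3, one_mul]
  -- too many roots
  have hApos : 0 < A.card := by omega
  have hne : (Polynomial.X ^ A.card - Polynomial.C ((-1 : ZMod p) ^ k)) ≠ 0 :=
    Polynomial.X_pow_sub_C_ne_zero hApos _
  have hsub : ((univ : Finset (ZMod p)) \ {0, 1, -1}) ⊆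
      (Polynomial.X ^ A.card - Polynomial.C ((-1 : ZMod p) ^ k)).roots.toFinset := by
    intro x hx
    simp only [Finset.mem_sdiff, Finset.mem_univ, true_and, Finset.mem_insert,
      Finset.mem_singleton, not_or] at hx
    rw [Multiset.mem_toFinset, Polynomial.mem_roots hne, Polynomial.IsRoot.def]
    simp only [Polynomial.eval_sub, Polynomial.eval_pow, Polynomial.eval_X, Polynomial.eval_C]
    rw [hpow x hx.1 hx.2.1 hx.2.2, sub_self]
  have h1 := Finset.card_le_card hsub
  have h2 := Multiset.toFinset_card_le
    (Polynomial.X ^ A.card - Polynomial.C ((-1 : ZMod p) ^ k)).roots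
  have h3 := Polynomial.card_roots' (Polynomial.X ^ A.card - Polynomial.C ((-1 : ZMod p) ^ k))
  rw [Polynomial.natDegree_X_pow_sub_C] at h3
  have h4 := Finset.le_card_sdiff ({0, 1, -1} : Finset (ZMod p)) univ
  have h5 := Finset.card_le_three (a := (0 : ZMod p)) (b := 1) (c := -1)
  rw [Finset.card_univ, ZMod.card] at h4
  omega


end core

theorem minor_ne {p s : ℕ} [Fact p.Prime] {M : Matrix (Fin s) (Fin s) (ZMod p)}
    (h : IsLinearAONT p 2 s M) {i l j k : Fin s} (hil : i ≠ l) (hjk : j ≠ k) :
    M i j * M l k ≠ M i k * M l j := by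
  intro heq
  have hr : Function.Injective ![i, l] := by
    intro x y hxy
    fin_cases x <;> fin_cases y <;> simp_all
  have hc : Function.Injective ![j, k] := by
    intro x y hxy
    fin_cases x <;> fin_cases y <;> simp_all
  have h1 := h.2 ⟨_, hr⟩ ⟨_, hc⟩
  rw [Matrix.isUnit_iff_isUnit_det, Matrix.det_fin_two] at h1
  simp only [Function.Embedding.coeFn_mk, Matrix.submatrix_apply, Matrix.cons_val_zero,
    Matrix.cons_val_one] at h1
  rw [heq, sub_self] at h1
  exact not_isUnit_zero h1

/-- For no prime `p > 5` is there a symmetric linear `(2,p,p)`-AONT in standard form. -/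
theorem result : ∀ p : ℕ, p.Prime → 5 < p →
    ¬ ∃ M : Matrix (Fin p) (Fin p) (ZMod p),
      IsLinearAONT p 2 p M ∧ IsStandardForm M ∧ M.IsSymm := by
  rintro p hp h5 ⟨M, hM, hst, hsymm⟩
  have : Fact p.Prime := ⟨hp⟩
  let o : Fin p := ⟨0, by omega⟩
  let z : Fin p := ⟨p - 1, by omega⟩
  let I := {i : Fin p // i.val ≠ 0}
  let a : I → I → ZMod p := fun i j => M i.1 j.1
  have hI : Fintype.card I + 1 = p := by
    have h1 : Fintype.card I = Fintype.card (Fin p) - Fintype.card {i : Fin p // i.val = 0} :=
      Fintype.card_subtype_compl _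
    have h2 : Fintype.card {i : Fin p // i.val = 0} = 1 := by
      rw [Fintype.card_eq_one_iff]
      exact ⟨⟨o, rfl⟩, fun x => Subtype.ext (Fin.ext x.2)⟩
    rw [h1, h2, Fintype.card_fin]; omega
  have hsym : ∀ i j, a i j = a j i := fun i j => hsymm.apply j.1 i.1
  have hrow : ∀ i, Function.Injective (a i) := by
    intro i j k hjk
    by_contra hne
    have hjk' : j.1 ≠ k.1 := fun h => hne (Subtype.ext h)
    have hoi : o ≠ i.1 := fun h => i.2 (by rw [← h])
    apply minor_ne hM hoi hjk'
    rw [hst.first_row o j.1 rfl j.2, hst.first_row o k.1 rfl k.2, one_mul, one_mul]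
    exact hjk.symm
  have hrat : ∀ i l, i ≠ l → ∀ j k, j ≠ k → a i j * a l k ≠ a i k * a l j := by
    intro i l hil j k hjk
    exact minor_ne hM (fun h => hil (Subtype.ext h)) (fun h => hjk (Subtype.ext h))
  have hz : z.val ≠ 0 := by simp only [z]; omega
  have hd : ∀ i : I, i ≠ ⟨z, hz⟩ → a i i = 0 := by
    intro i hi
    apply hst.diag i.1 i.2
    have h1 : i.1 ≠ z := fun h => hi (Subtype.ext h)
    have h2 : i.1.val ≠ p - 1 := fun h => h1 (Fin.ext h)
    have h3 := i.1.isLt
    omega
  by_cases hlast : a ⟨z, hz⟩ ⟨z, hz⟩ = 0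
  · apply core_zero hI h5 hsym hrow hrat
    intro i
    by_cases hi : i = ⟨z, hz⟩
    · rw [hi]; exact hlast
    · exact hd i hi
  · exact core_one hI (by omega) hsym hrow hrat ⟨z, hz⟩ hlast hd

end Pool.Agent.Results.MP_e1f2d0_co.NoSymmetric
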